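import Pool.Agent.Helper68.LM2.St

/-!
# Project LM2, module DB

The dyadic maximal theorem for `p ≥ 2`.
-/

set_option autoImplicit false

open MeasureTheory Set Filter Topology
open scoped ENNReal RealInnerProductSpace

namespace Pool.Agent.Helper77.LM2

open Pool.Agent.Helper68.LM2 Pool.Agent.Helper68.LM

theorem sup_rpow_le_tsum (a : ℤ → ℝ≥0∞) (p : ℝ) (hp : 0 < p) :
    (⨆ k, a k) ^ p ≤ ∑' k, a k ^ p := by
  have h1 : (⨆ k, a k) ≤ (∑' k, a k ^ p) ^ p⁻¹ := by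
    refine iSup_le fun k => ?_
    calc a k = (a k ^ p) ^ p⁻¹ := by
          rw [← ENNReal.rpow_mul, mul_inv_cancel₀ hp.ne', ENNReal.rpow_one]
      _ ≤ (∑' k, a k ^ p) ^ p⁻¹ :=
          ENNReal.rpow_le_rpow (ENNReal.le_tsum k) (inv_nonneg.2 hp.le)
  calc (⨆ k, a k) ^ p ≤ ((∑' k, a k ^ p) ^ p⁻¹) ^ p := ENNReal.rpow_le_rpow h1 hp.le
    _ = ∑' k, a k ^ p := by
        rw [← ENNReal.rpow_mul, inv_mul_cancel₀ hp.ne', ENNReal.rpow_one]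

theorem BR_zero : BR (fun _ => (0 : ℝ)) := ⟨measurable_const, 0, by simp, by simp⟩

theorem BR_sum (hEB : StEB) (s : Finset ℕ) (f : ℕ → ℝ × ℝ → ℝ) (h : ∀ n, BR (f n)) :
    BR (fun z => ∑ n ∈ s, f n z) := by
  classical
  induction s using Finset.induction_on with
  | empty => simpa using BR_zero
  | insert a s ha ih =>
    simp only [Finset.sum_insert ha]
    exact (hEB.2.1 _ _ (h a) ih).1

theorem E2_zero (m : ℤ) (z : ℝ × ℝ) : E2 m (fun _ => (0 : ℝ)) z = 0 := by simp [E2, E1]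

theorem E2_sum (hEB : StEB) (s : Finset ℕ) (f : ℕ → ℝ × ℝ → ℝ) (h : ∀ n, BR (f n)) (m : ℤ)
    (z : ℝ × ℝ) : E2 m (fun w => ∑ n ∈ s, f n w) z = ∑ n ∈ s, E2 m (f n) z := by
  classical
  induction s using Finset.induction_on with
  | empty => simpa using E2_zero m z
  | insert a s ha ih =>
    simp only [Finset.sum_insert ha]
    rw [(hEB.2.2.2.2.2.2.1 m (f a) (fun w => ∑ n ∈ s, f n w) z (h a)
      (BR_sum hEB s f h)).1, ih]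

/-- tower in the second variable -/
theorem E2_tower (hEA : StEA) (hEB : StEB) (m m' : ℤ) (g : ℝ × ℝ → ℝ) (hg : BR g) (h : m ≤ m') :
    E2 m' (E2 m g) = E2 m' g ∧ E2 m (E2 m' g) = E2 m' g := by
  have ht := hEA.2.2.2.2.2.2.2.2.2.2.1
  constructor
  · funext z
    exact (ht m m' (fun y => g (z.1, y)) z.2 (hEB.1 g hg |>.1 z.1) h).1
  · funext z
    exact (ht m m' (fun y => g (z.1, y)) z.2 (hEB.1 g hg |>.1 z.1) h).2

theorem E2_D2 (hEA : StEA) (hEB : StEB) (m : ℤ) (g : ℝ × ℝ → ℝ) (hg : BR g) :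
    E2 m (D2 m g) = D2 m g ∧ E2 (m + 1) (D2 m g) = fun _ => 0 := by
  have hb : ∀ m, BR (E2 m g) := fun m => (hEB.2.2.2.1 m g hg).1
  have hs := hEB.2.2.2.2.2.2.1
  have hd : D2 m g = fun w => E2 m g w - E2 (m + 1) g w := rfl
  constructor
  · funext z
    rw [hd, (hs m (E2 m g) (E2 (m + 1) g) z (hb _) (hb _)).2,
      (E2_tower hEA hEB m m g hg le_rfl).1, (E2_tower hEA hEB m (m + 1) g hg (by omega)).2]
  · funext z
    rw [hd, (hs (m + 1) (E2 m g) (E2 (m + 1) g) z (hb _) (hb _)).2,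
      (E2_tower hEA hEB m (m + 1) g hg (by omega)).1,
      (E2_tower hEA hEB (m + 1) (m + 1) g hg le_rfl).1, sub_self]

theorem Rh_zero (ρ : Measure ℝ) (k : ℤ) (z : ℝ × ℝ) : Rh ρ k (fun _ => (0 : ℝ)) z = 0 := by
  simp [Rh]

section

variable (τ : ℕ → ℝ) (m₀ : ℕ)

/-- the sum of the operators as a sum of martingale differences -/
noncomputable def Yj (k : ℤ) (Nm : ℕ) (g : ℝ × ℝ → ℝ) (j : ℕ) (z : ℝ × ℝ) : ℝ :=
  if 1 ≤ j then ∑ n ∈ Finset.Ico j Nm,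
    Rh (rho τ m₀ n) k (D2 (k - (m₀ : ℤ) + 2 - (j : ℤ)) g) z else 0

theorem telesc (hEB : StEB) (hRHO : StRHO) (hτ : Seq τ m₀) (k m : ℤ) (n : ℕ) (g : ℝ × ℝ → ℝ)
    (hg : BR g) (z : ℝ × ℝ) (n' : ℕ) :
    Rh (rho τ m₀ n) k (fun w => E2 (m - (n' : ℤ)) g w - E2 m g w) z =
      ∑ j ∈ Finset.Ico 1 (n' + 1), Rh (rho τ m₀ n) k (D2 (m - (j : ℤ)) g) z := by
  have hb : ∀ m, BR (E2 m g) := fun m => (hEB.2.2.2.1 m g hg).1
  induction n' with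
  | zero => simp [Rh]
  | succ n' ih =>
    rw [Finset.sum_Ico_succ_top (by omega), ← ih,
      ← (hRHO τ m₀ hτ).2.2.2.2.2.2.1 n k _ _ z ((hEB.2.1 _ _ (hb _) (hb _)).2)
        ((hEB.2.2.2.1 _ g hg).2)]
    congr 1
    funext w
    unfold D2
    have : m - ((n' + 1 : ℕ) : ℤ) + 1 = m - (n' : ℤ) := by push_cast; ring
    rw [this]
    ring

theorem sum_Vc (hEB : StEB) (hRHO : StRHO) (hτ : Seq τ m₀) (k : ℤ) (Nm : ℕ) (g : ℝ × ℝ → ℝ)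
    (hg : BR g) (z : ℝ × ℝ) :
    ∑ n ∈ Finset.range Nm, Vc τ m₀ k n g z = ∑ j ∈ Finset.range Nm, Yj τ m₀ k Nm g j z := by
  have h1 : ∀ n ∈ Finset.range Nm, Vc τ m₀ k n g z = ∑ j ∈ Finset.Ico 1 (n + 1),
      Rh (rho τ m₀ n) k (D2 (k - (m₀ : ℤ) + 2 - (j : ℤ)) g) z := by
    intro n _
    rw [← telesc τ m₀ hEB hRHO hτ k (k - (m₀ : ℤ) + 2) n g hg z n]
    unfold Vc
    have : k - (m₀ : ℤ) - (n : ℤ) + 2 = k - (m₀ : ℤ) + 2 - (n : ℤ) := by ring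
    rw [this]
  rw [Finset.sum_congr rfl h1]
  have h2 : ∑ j ∈ Finset.range Nm, Yj τ m₀ k Nm g j z = ∑ j ∈ Finset.Ico 1 Nm,
      ∑ n ∈ Finset.Ico j Nm, Rh (rho τ m₀ n) k (D2 (k - (m₀ : ℤ) + 2 - (j : ℤ)) g) z := by
    unfold Yj
    rw [← Finset.sum_filter]
    congr 1
    ext j
    simp only [Finset.mem_filter, Finset.mem_range, Finset.mem_Ico]
    omega
  rw [h2]
  apply Finset.sum_comm'
  intro n j
  simp only [Finset.mem_range, Finset.mem_Ico]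
  omega

theorem Yj_BR (hEB : StEB) (hRHO : StRHO) (hτ : Seq τ m₀) (k : ℤ) (Nm : ℕ) (g : ℝ × ℝ → ℝ)
    (hg : BR g) (j : ℕ) : BR (Yj τ m₀ k Nm g j) := by
  unfold Yj
  by_cases hj : 1 ≤ j
  · simp only [if_pos hj]
    exact BR_sum hEB _ (fun n => Rh (rho τ m₀ n) k (D2 (k - (m₀ : ℤ) + 2 - (j : ℤ)) g))
      (fun n => (hRHO τ m₀ hτ).2.2.1 n k _ ((hEB.2.2.2.1 _ g hg).2))
  · simp only [if_neg hj]
    exact BR_zero

theorem Yj_E2 (hEA : StEA) (hEB : StEB) (hRHO : StRHO) (hτ : Seq τ m₀) (k : ℤ) (Nm : ℕ)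
    (g : ℝ × ℝ → ℝ) (hg : BR g) (j : ℕ) (z : ℝ × ℝ) :
    E2 (k - (m₀ : ℤ) + 2 - (j : ℤ)) (Yj τ m₀ k Nm g j) z = Yj τ m₀ k Nm g j z ∧
    E2 (k - (m₀ : ℤ) + 2 - (j : ℤ) + 1) (Yj τ m₀ k Nm g j) z = 0 := by
  set m : ℤ := k - (m₀ : ℤ) + 2 - (j : ℤ) with hm
  have hbr : ∀ n, BR (Rh (rho τ m₀ n) k (D2 m g)) :=
    fun n => (hRHO τ m₀ hτ).2.2.1 n k _ ((hEB.2.2.2.1 _ g hg).2)
  by_cases hj : 1 ≤ j
  · have hY : Yj τ m₀ k Nm g j = fun w => ∑ n ∈ Finset.Ico j Nm, Rh (rho τ m₀ n) k (D2 m g) w := by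
      funext w
      simp only [Yj, if_pos hj, ← hm]
    have hcomm := (hRHO τ m₀ hτ).2.2.2.2.1
    constructor
    · rw [hY, E2_sum hEB _ (fun n => Rh (rho τ m₀ n) k (D2 m g)) hbr]
      refine Finset.sum_congr rfl fun n _ => ?_
      rw [hcomm n k m (D2 m g) z ((hEB.2.2.2.1 _ g hg).2), (E2_D2 hEA hEB m g hg).1]
    · rw [hY, E2_sum hEB _ (fun n => Rh (rho τ m₀ n) k (D2 m g)) hbr]
      refine Finset.sum_eq_zero fun n _ => ?_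
      rw [hcomm n k (m + 1) (D2 m g) z ((hEB.2.2.2.1 _ g hg).2), (E2_D2 hEA hEB m g hg).2,
        Rh_zero]
  · have hY : Yj τ m₀ k Nm g j = fun _ => 0 := by
      funext w
      simp only [Yj, if_neg hj]
    rw [hY]
    exact ⟨E2_zero _ _, E2_zero _ _⟩

end

/-- the square function inequality in the second variable, integrated -/
theorem lint_prod {F : ℝ × ℝ → ℝ≥0∞} (hF : Measurable F) :
    ∫⁻ z, F z = ∫⁻ a, ∫⁻ b, F (a, b) := by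
  rw [Measure.volume_eq_prod, lintegral_prod _ hF.aemeasurable]

theorem step1 (hEA : StEA) (hEB : StEB) (hRHO : StRHO) (hSB : StSB) (p : ℝ) (hp : 2 < p) :
    ∃ C : ℝ, 0 < C ∧ ∀ (τ : ℕ → ℝ) (m₀ : ℕ), Seq τ m₀ → ∀ (Nm : ℕ) (k : ℤ) (g : ℝ × ℝ → ℝ),
      BR g → ∫⁻ z, ‖∑ n ∈ Finset.range Nm, Vc τ m₀ k n g z‖ₑ ^ p ≤
        ENNReal.ofReal C * ∫⁻ z, (∑ j ∈ Finset.range Nm, ‖∑ n ∈ Finset.Ico j Nm,
          Rh (rho τ m₀ n) k (D2 (k - (m₀ : ℤ) + 2 - (j : ℤ)) g) z‖ₑ ^ 2) ^ (p / 2) := by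
  obtain ⟨C, hC, hS⟩ := hSB p hp
  refine ⟨C, hC, ?_⟩
  intro τ m₀ hτ Nm k g hg
  have hYm : ∀ j, Measurable (Yj τ m₀ k Nm g j) := fun j => (Yj_BR τ m₀ hEB hRHO hτ k Nm g hg j).1
  have hm1 : Measurable fun z => ‖∑ j ∈ Finset.range Nm, Yj τ m₀ k Nm g j z‖ₑ ^ p :=
    ((Finset.measurable_sum _ fun j _ => hYm j).enorm).pow_const p
  have hm2 : Measurable fun z => (∑ j ∈ Finset.range Nm, ‖Yj τ m₀ k Nm g j z‖ₑ ^ 2) ^ (p / 2) :=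
    (Finset.measurable_sum _ fun j _ => (hYm j).enorm.pow_const 2).pow_const _
  simp only [sum_Vc τ m₀ hEB hRHO hτ k Nm g hg]
  calc ∫⁻ z, ‖∑ j ∈ Finset.range Nm, Yj τ m₀ k Nm g j z‖ₑ ^ p
      = ∫⁻ a, ∫⁻ b, ‖∑ j ∈ Finset.range Nm, Yj τ m₀ k Nm g j (a, b)‖ₑ ^ p := lint_prod hm1
    _ ≤ ∫⁻ a, ENNReal.ofReal C *
          ∫⁻ b, (∑ j ∈ Finset.range Nm, ‖Yj τ m₀ k Nm g j (a, b)‖ₑ ^ 2) ^ (p / 2) := by
        refine lintegral_mono fun a => ?_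
        exact hS (k - (m₀ : ℤ) + 2) Nm (fun j b => Yj τ m₀ k Nm g j (a, b))
          (fun j => (hEB.1 _ (Yj_BR τ m₀ hEB hRHO hτ k Nm g hg j)).1 a)
          (fun j b => (Yj_E2 τ m₀ hEA hEB hRHO hτ k Nm g hg j (a, b)).1)
          (fun j b => (Yj_E2 τ m₀ hEA hEB hRHO hτ k Nm g hg j (a, b)).2)
    _ = ENNReal.ofReal C * ∫⁻ a, ∫⁻ b,
          (∑ j ∈ Finset.range Nm, ‖Yj τ m₀ k Nm g j (a, b)‖ₑ ^ 2) ^ (p / 2) := by
        rw [lintegral_const_mul' _ _ ENNReal.ofReal_ne_top]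
    _ = ENNReal.ofReal C * ∫⁻ z,
          (∑ j ∈ Finset.range Nm, ‖Yj τ m₀ k Nm g j z‖ₑ ^ 2) ^ (p / 2) := by
        rw [lint_prod hm2]
    _ ≤ _ := by
        refine mul_le_mul_right ?_ _
        refine lintegral_mono fun z => ?_
        refine ENNReal.rpow_le_rpow ?_ (by linarith)
        refine Finset.sum_le_sum fun j _ => ?_
        by_cases hj : 1 ≤ j
        · simp only [Yj, if_pos hj]
          exact le_rfl
        · simp only [Yj, if_neg hj]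
          simp

theorem step2 (hEB : StEB) (hSA : StSA) (p : ℝ) (hp : 2 < p) : ∃ C : ℝ, 0 < C ∧
    ∀ g : ℝ × ℝ → ℝ, BR g → ∫⁻ z, (∑' m : ℤ, ‖D2 m g z‖ₑ ^ 2) ^ (p / 2) ≤
      ENNReal.ofReal C * ∫⁻ z, ‖g z‖ₑ ^ p := by
  obtain ⟨C, hC, hS⟩ := hSA p hp
  refine ⟨C, hC, ?_⟩
  intro g hg
  have hm1 : Measurable fun z => (∑' m : ℤ, ‖D2 m g z‖ₑ ^ 2) ^ (p / 2) :=
    (Measurable.tsum fun m => ((hEB.2.2.2.1 m g hg).2.1).enorm.pow_const 2).pow_const _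
  have hm2 : Measurable fun z => ‖g z‖ₑ ^ p := hg.1.enorm.pow_const p
  calc ∫⁻ z, (∑' m : ℤ, ‖D2 m g z‖ₑ ^ 2) ^ (p / 2)
      = ∫⁻ a, ∫⁻ b, (∑' m : ℤ, ‖D2 m g (a, b)‖ₑ ^ 2) ^ (p / 2) := lint_prod hm1
    _ ≤ ∫⁻ a, ENNReal.ofReal C * ∫⁻ b, ‖g (a, b)‖ₑ ^ p := by
        refine lintegral_mono fun a => ?_
        exact hS (fun y => g (a, y)) ((hEB.1 g hg).1 a)
    _ = ENNReal.ofReal C * ∫⁻ a, ∫⁻ b, ‖g (a, b)‖ₑ ^ p := by
        rw [lintegral_const_mul' _ _ ENNReal.ofReal_ne_top]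
    _ = _ := by rw [lint_prod hm2]

theorem wt_le (τ : ℕ → ℝ) (m₀ : ℕ) (hτ : Seq τ m₀) (Nm j : ℕ) :
    0 ≤ wt τ (Finset.range Nm) j ∧ wt τ (Finset.range Nm) j ≤ 2 * τ j := by
  obtain ⟨hanti, hpos, _, _⟩ := hτ
  have h0 : ∀ n, 0 ≤ 2 * (τ n - τ (n + 1)) := fun n => by
    have := hanti (Nat.lt_succ_self n)
    simp only [Nat.succ_eq_add_one] at this
    linarith
  unfold wt
  refine ⟨Finset.sum_nonneg fun n _ => h0 n, ?_⟩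
  have h1 : (Finset.range Nm).filter (fun n => j ≤ n) = Finset.Ico j Nm := by
    ext n
    simp only [Finset.mem_filter, Finset.mem_range, Finset.mem_Ico]
    omega
  rw [h1, ← Finset.mul_sum]
  rcases le_or_gt Nm j with h | h
  · rw [Finset.Ico_eq_empty_of_le h]
    simp [(hpos j).le]
  · have h2 : ∑ n ∈ Finset.Ico j Nm, (τ n - τ (n + 1)) = τ j - τ Nm := by
      have := Finset.sum_Ico_sub (fun n => -τ n) h.le
      have h3 : ∑ n ∈ Finset.Ico j Nm, (τ n - τ (n + 1)) =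
          ∑ n ∈ Finset.Ico j Nm, (-τ (n + 1) - -τ n) :=
        Finset.sum_congr rfl fun n _ => by ring
      rw [h3, this]
      ring
    rw [h2]
    have := hpos Nm
    linarith

/-- **DB**, exponent two -/
theorem db_two (hEB : StEB) (hLL : StLL) (τ : ℕ → ℝ) (m₀ : ℕ) (hτ : Seq τ m₀)
    (Nm : ℕ) (g : ℝ × ℝ → ℝ) (hg : BR g) :
    ∑' k : ℤ, ∫⁻ z, ‖∑ n ∈ Finset.range Nm, Vc τ m₀ k n g z‖ₑ ^ 2 ≤
      ENNReal.ofReal (4 * ∑ n ∈ Finset.range Nm, τ n ^ 2) * ∫⁻ z, ‖g z‖ₑ ^ 2 := by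
  have h := hLL τ m₀ hτ Nm 1 (fun _ => Finset.range Nm) (fun _ => g) (fun _ _ => 1)
    (fun _ => Finset.Subset.refl _) (fun _ => hg) (fun _ _ => one_pos)
  simp only [Finset.sum_range_one, mul_one, inv_one] at h
  refine le_trans h ?_
  have hI : 0 ≤ ∫ z, g z ^ 2 := integral_nonneg fun z => sq_nonneg _
  have hint : ∫⁻ z, ‖g z‖ₑ ^ 2 = ENNReal.ofReal (∫ z, g z ^ 2) := by
    rw [ofReal_integral_eq_lintegral_ofReal]
    · refine lintegral_congr fun z => ?_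
      rw [← ofReal_norm, ← ENNReal.ofReal_pow (norm_nonneg _), Real.norm_eq_abs, sq_abs]
    · obtain ⟨hm, K, hK, hK2⟩ := hg
      have hgi : Integrable g := (hEB.1 g ⟨hm, K, hK, hK2⟩).2
      have h2 : Integrable (fun z => g z * g z) := hgi.bdd_mul (c := K) hm.aestronglyMeasurable
        (Filter.Eventually.of_forall fun z => by rw [Real.norm_eq_abs]; exact hK z)
      simpa [sq] using h2
    · exact Filter.Eventually.of_forall fun z => sq_nonneg _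
  rw [hint, ← ENNReal.ofReal_mul (mul_nonneg (by norm_num)
    (Finset.sum_nonneg fun n _ => sq_nonneg _))]
  refine ENNReal.ofReal_le_ofReal ?_
  rw [Finset.mul_sum, Finset.sum_mul]
  refine Finset.sum_le_sum fun j _ => ?_
  obtain ⟨h0, h1⟩ := wt_le τ m₀ hτ Nm j
  have h2 : wt τ (Finset.range Nm) j * wt τ (Finset.range Nm) j ≤ (2 * τ j) * (2 * τ j) :=
    mul_le_mul h1 h1 h0 (by have := hτ.2.1 j; linarith)
  calc wt τ (Finset.range Nm) j * (wt τ (Finset.range Nm) j * ∫ z, g z ^ 2)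
      = (wt τ (Finset.range Nm) j * wt τ (Finset.range Nm) j) * ∫ z, g z ^ 2 := by ring
    _ ≤ ((2 * τ j) * (2 * τ j)) * ∫ z, g z ^ 2 := mul_le_mul_of_nonneg_right h2 hI
    _ = 4 * τ j ^ 2 * ∫ z, g z ^ 2 := by ring

/-- **DB**, the sum over the scales, exponent above two -/
theorem db_gt (hEA : StEA) (hEB : StEB) (hRHO : StRHO) (hSB : StSB) (hSA : StSA) (hVEC : StVEC)
    (hYNG : StYNG) (p : ℝ) (hp : 2 < p) : ∃ C : ℝ, 0 < C ∧ ∀ (τ : ℕ → ℝ) (m₀ : ℕ), Seq τ m₀ →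
    ∀ (Nm : ℕ) (g : ℝ × ℝ → ℝ), BR g →
    ∑' k : ℤ, ∫⁻ z, ‖∑ n ∈ Finset.range Nm, Vc τ m₀ k n g z‖ₑ ^ p ≤
      ENNReal.ofReal (C * ∑ n ∈ Finset.range Nm, τ n ^ p) * ∫⁻ z, ‖g z‖ₑ ^ p := by
  obtain ⟨C1, hC1, h1⟩ := step1 hEA hEB hRHO hSB p hp
  obtain ⟨C2, hC2, h2⟩ := step2 hEB hSA p hp
  obtain ⟨C3, hC3, h3⟩ := hVEC p hp
  refine ⟨C1 * C3 * C2, by positivity, ?_⟩
  intro τ m₀ hτ Nm g hg
  have hDm : ∀ m, Measurable (D2 m g) := fun m => (hEB.2.2.2.1 m g hg).2.1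
  have hk : ∀ k : ℤ, ∫⁻ z, ‖∑ n ∈ Finset.range Nm, Vc τ m₀ k n g z‖ₑ ^ p ≤
      ENNReal.ofReal C1 * (ENNReal.ofReal C3 * ∫⁻ z, (∑ j ∈ Finset.range Nm,
        ENNReal.ofReal (τ j ^ 2) * ‖D2 (k - (m₀ : ℤ) + 2 - (j : ℤ)) g z‖ₑ ^ 2) ^ (p / 2)) := by
    intro k
    refine le_trans (h1 τ m₀ hτ Nm k g hg) (mul_le_mul_right ?_ _)
    exact h3 τ m₀ hτ Nm k (fun j => D2 (k - (m₀ : ℤ) + 2 - (j : ℤ)) g)
      (fun j => (hEB.2.2.2.1 _ g hg).2)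
  refine le_trans (ENNReal.tsum_le_tsum hk) ?_
  rw [ENNReal.tsum_mul_left, ENNReal.tsum_mul_left]
  have hmk : ∀ k : ℤ, Measurable fun z => (∑ j ∈ Finset.range Nm,
      ENNReal.ofReal (τ j ^ 2) * ‖D2 (k - (m₀ : ℤ) + 2 - (j : ℤ)) g z‖ₑ ^ 2) ^ (p / 2) :=
    fun k => (Finset.measurable_sum _ fun j _ =>
      ((hDm _).enorm.pow_const 2).const_mul _).pow_const _
  rw [← lintegral_tsum fun k => (hmk k).aemeasurable]
  have hz : ∀ z, ∑' k : ℤ, (∑ j ∈ Finset.range Nm,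
      ENNReal.ofReal (τ j ^ 2) * ‖D2 (k - (m₀ : ℤ) + 2 - (j : ℤ)) g z‖ₑ ^ 2) ^ (p / 2) ≤
      ENNReal.ofReal (∑ n ∈ Finset.range Nm, τ n ^ p) *
        (∑' m : ℤ, ‖D2 m g z‖ₑ ^ 2) ^ (p / 2) := by
    intro z
    have h := hYNG (p / 2) (fun m => ‖D2 m g z‖ₑ ^ 2) (fun j => ENNReal.ofReal (τ j ^ 2)) Nm
      (-(m₀ : ℤ) + 2) (by linarith)
    have e1 : ∀ (k : ℤ) (j : ℕ), k + (-(m₀ : ℤ) + 2) - (j : ℤ) = k - (m₀ : ℤ) + 2 - (j : ℤ) :=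
      fun k j => by ring
    simp only [e1] at h
    refine le_trans h (le_of_eq ?_)
    congr 1
    rw [ENNReal.ofReal_sum_of_nonneg fun n _ => Real.rpow_nonneg (hτ.2.1 n).le _]
    refine Finset.sum_congr rfl fun j _ => ?_
    rw [ENNReal.ofReal_rpow_of_nonneg (sq_nonneg _) (by linarith), ← Real.rpow_natCast,
      ← Real.rpow_mul (hτ.2.1 j).le]
    congr 2
    push_cast
    ring
  have hsum0 : 0 ≤ ∑ n ∈ Finset.range Nm, τ n ^ p :=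
    Finset.sum_nonneg fun n _ => Real.rpow_nonneg (hτ.2.1 n).le _
  calc ENNReal.ofReal C1 * (ENNReal.ofReal C3 * ∫⁻ z, ∑' k : ℤ, (∑ j ∈ Finset.range Nm,
        ENNReal.ofReal (τ j ^ 2) * ‖D2 (k - (m₀ : ℤ) + 2 - (j : ℤ)) g z‖ₑ ^ 2) ^ (p / 2))
      ≤ ENNReal.ofReal C1 * (ENNReal.ofReal C3 * (ENNReal.ofReal (∑ n ∈ Finset.range Nm, τ n ^ p) *
        (ENNReal.ofReal C2 * ∫⁻ z, ‖g z‖ₑ ^ p))) := by
        refine mul_le_mul_right (mul_le_mul_right ?_ _) _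
        refine le_trans (lintegral_mono hz) ?_
        rw [lintegral_const_mul' _ _ ENNReal.ofReal_ne_top]
        exact mul_le_mul_right (h2 g hg) _
    _ = ENNReal.ofReal (C1 * C3 * C2 * ∑ n ∈ Finset.range Nm, τ n ^ p) * ∫⁻ z, ‖g z‖ₑ ^ p := by
        rw [ENNReal.ofReal_mul (by positivity), ENNReal.ofReal_mul (by positivity),
          ENNReal.ofReal_mul hC1.le]
        ring

/-- **DB**: the dyadic maximal theorem, exponents at least two -/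
theorem hDB (hEA : StEA) (hEB : StEB) (hRHO : StRHO) (_hORT : StORT) (hLL : StLL) (hSB : StSB)
    (hSA : StSA) (hVEC : StVEC) (hYNG : StYNG) : StDB := by
  intro p hp
  have hmain : ∃ C : ℝ, 0 < C ∧ ∀ (τ : ℕ → ℝ) (m₀ : ℕ), Seq τ m₀ →
      ∀ (Nm : ℕ) (g : ℝ × ℝ → ℝ), BR g →
      ∑' k : ℤ, ∫⁻ z, ‖∑ n ∈ Finset.range Nm, Vc τ m₀ k n g z‖ₑ ^ p ≤
        ENNReal.ofReal (C * ∑ n ∈ Finset.range Nm, τ n ^ p) * ∫⁻ z, ‖g z‖ₑ ^ p := by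
    rcases eq_or_lt_of_le hp with h | h
    · refine ⟨4, by norm_num, ?_⟩
      intro τ m₀ hτ Nm g hg
      subst h
      have := db_two hEB hLL τ m₀ hτ Nm g hg
      simpa only [ENNReal.rpow_two, Real.rpow_two] using this
    · exact db_gt hEA hEB hRHO hSB hSA hVEC hYNG p h
  obtain ⟨C, hC, hM⟩ := hmain
  refine ⟨C, hC, ?_⟩
  intro τ m₀ hτ Nm g P hg
  refine le_trans ?_ (hM τ m₀ hτ Nm g hg)
  have hVm : ∀ k, Measurable fun z => ∑ n ∈ Finset.range Nm, Vc τ m₀ k n g z :=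
    fun k => Finset.measurable_sum _ fun n _ => ((hRHO τ m₀ hτ).2.2.2.2.2.2.2.1 n k g hg).2.1
  calc ∫⁻ z, (⨆ k : ℤ, ‖∑ n ∈ Finset.range Nm, Vc τ m₀ k n g (z - (2 : ℝ) ^ k • P)‖ₑ) ^ p
      ≤ ∫⁻ z, ∑' k : ℤ, ‖∑ n ∈ Finset.range Nm, Vc τ m₀ k n g (z - (2 : ℝ) ^ k • P)‖ₑ ^ p :=
        lintegral_mono fun z => sup_rpow_le_tsum _ p (by linarith)
    _ = ∑' k : ℤ, ∫⁻ z, ‖∑ n ∈ Finset.range Nm, Vc τ m₀ k n g (z - (2 : ℝ) ^ k • P)‖ₑ ^ p := by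
        rw [lintegral_tsum]
        intro k
        exact (((hVm k).comp (measurable_id.sub_const _)).enorm.pow_const p).aemeasurable
    _ = ∑' k : ℤ, ∫⁻ z, ‖∑ n ∈ Finset.range Nm, Vc τ m₀ k n g z‖ₑ ^ p := by
        refine tsum_congr fun k => ?_
        exact lintegral_sub_right_eq_self
          (fun z => ‖∑ n ∈ Finset.range Nm, Vc τ m₀ k n g z‖ₑ ^ p) ((2 : ℝ) ^ k • P)

end Pool.Agent.Helper77.LM2
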